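import Mathlib
import Pool.Agent.X86.Marc

/-!
# Lipschitz interpolation of `L^γ[0,1]` between `L^β[0,1]` and `L^α[0,1]` (MP_6e3e44_an)
-/

open MeasureTheory Set Filter
open scoped ENNReal NNReal Topology

namespace Pool.Agent.Results.MP_6e3e44_an.LipInterp

/-- Lebesgue measure on `[0,1]`. -/
noncomputable def mu : Measure ℝ := volume.restrict (Set.Icc 0 1)

instance : IsFiniteMeasure mu := by
  unfold mu
  infer_instance

/-- `U : L^β → L^β` is a map, possibly nonlinear, which is `M₀`-Lipschitz for the norm of `L^β`,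
maps `L^α` into `L^α`, and is `M₁`-Lipschitz on `L^α` for the norm of `L^α`. -/
structure IsAdmissible (β α : ℝ≥0∞) (U : Lp ℂ β mu → Lp ℂ β mu) (M₀ M₁ : ℝ≥0) : Prop where
  lip0 : ∀ x y : Lp ℂ β mu, eLpNorm (⇑(U x) - ⇑(U y)) β mu ≤ M₀ * eLpNorm (⇑x - ⇑y) β mu
  maps : ∀ x : Lp ℂ β mu, MemLp (⇑x) α mu → MemLp (⇑(U x)) α mu
  lip1 : ∀ x y : Lp ℂ β mu, MemLp (⇑x) α mu → MemLp (⇑y) α mu →
    eLpNorm (⇑(U x) - ⇑(U y)) α mu ≤ M₁ * eLpNorm (⇑x - ⇑y) α mu

/-- `L^γ[0,1]` is a Lipschitz interpolation space with constant `C` between `L^β[0,1]` and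
`L^α[0,1]`. -/
def IsLipschitzInterpolation (β γ α : ℝ≥0∞) (C : ℝ≥0) : Prop :=
  ∀ (U : Lp ℂ β mu → Lp ℂ β mu) (M₀ M₁ : ℝ≥0), IsAdmissible β α U M₀ M₁ →
    (∀ x : Lp ℂ β mu, MemLp (⇑x) γ mu → MemLp (⇑(U x)) γ mu) ∧
    ∀ x y : Lp ℂ β mu, MemLp (⇑x) γ mu → MemLp (⇑y) γ mu →
      eLpNorm (⇑(U x) - ⇑(U y)) γ mu ≤ C * (max M₀ M₁ : ℝ≥0) * eLpNorm (⇑x - ⇑y) γ mu

lemma aesm {β : ℝ≥0∞} (x : Lp ℂ β mu) : AEStronglyMeasurable (⇑x) mu :=
  Lp.aestronglyMeasurable x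

/-- Increments of `U` by elements of `L^α`, at arbitrary points of `L^β`. -/
lemma increment {β α : ℝ≥0∞} (hβ : 1 ≤ β) (hβt : β ≠ ⊤) {U : Lp ℂ β mu → Lp ℂ β mu}
    {M₀ M₁ : ℝ≥0} (hU : IsAdmissible β α U M₀ M₁) (y v : Lp ℂ β mu) (hv : MemLp (⇑v) α mu) :
    eLpNorm (⇑(U (y + v)) - ⇑(U y)) α mu ≤ M₁ * eLpNorm (⇑v) α mu := by
  have hex : ∀ n : ℕ, ∃ g : Lp ℂ β mu, MemLp (⇑g) α mu ∧
      eLpNorm (⇑g - ⇑y) β mu ≤ (n + 1 : ℝ≥0∞)⁻¹ := by
    intro n
    obtain ⟨g, hg, hgm⟩ := (Lp.memLp y).exists_simpleFunc_eLpNorm_sub_lt hβt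
      (ε := (n + 1 : ℝ≥0∞)⁻¹) (by simp)
    refine ⟨hgm.toLp g, ?_, ?_⟩
    · exact (g.memLp_of_isFiniteMeasure α mu).ae_eq hgm.coeFn_toLp.symm
    · have h1 : eLpNorm (⇑(hgm.toLp g) - ⇑y) β mu = eLpNorm (⇑y - ⇑g) β mu := by
        rw [eLpNorm_sub_comm]
        apply eLpNorm_congr_ae
        filter_upwards [hgm.coeFn_toLp] with t ht
        simp [ht]
      rw [h1]; exact hg.le
  choose g hgα hg using hex
  have htend0 : Tendsto (fun n : ℕ => (n + 1 : ℝ≥0∞)⁻¹) atTop (𝓝 0) := by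
    have h := ENNReal.tendsto_inv_nat_nhds_zero
    have h2 := (tendsto_add_atTop_iff_nat 1).mpr h
    simpa using h2
  set D : ℕ → ℝ → ℂ := fun n => ⇑(U (g n + v)) - ⇑(U (g n)) with hD
  set Dl : ℝ → ℂ := ⇑(U (y + v)) - ⇑(U y) with hDl
  have hDm : ∀ n, AEStronglyMeasurable (D n) mu := fun n => (aesm _).sub (aesm _)
  have hDlm : AEStronglyMeasurable Dl mu := (aesm _).sub (aesm _)
  have hdist : ∀ n, eLpNorm (D n - Dl) β mu ≤ 2 * M₀ * (n + 1 : ℝ≥0∞)⁻¹ := by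
    intro n
    have h1 : D n - Dl = (⇑(U (g n + v)) - ⇑(U (y + v))) - (⇑(U (g n)) - ⇑(U y)) := by
      rw [hD, hDl]; ring
    have h2 : eLpNorm (D n - Dl) β mu ≤ eLpNorm (⇑(U (g n + v)) - ⇑(U (y + v))) β mu
        + eLpNorm (⇑(U (g n)) - ⇑(U y)) β mu := by
      rw [h1]
      exact eLpNorm_sub_le ((aesm _).sub (aesm _)) ((aesm _).sub (aesm _)) hβ
    have h3 : eLpNorm (⇑(g n + v) - ⇑(y + v)) β mu = eLpNorm (⇑(g n) - ⇑y) β mu := by
      apply eLpNorm_congr_ae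
      filter_upwards [Lp.coeFn_add (g n) v, Lp.coeFn_add y v] with t h1 h2
      simp only [Pi.sub_apply, h1, h2, Pi.add_apply]
      ring
    calc eLpNorm (D n - Dl) β mu ≤ _ := h2
      _ ≤ M₀ * eLpNorm (⇑(g n + v) - ⇑(y + v)) β mu + M₀ * eLpNorm (⇑(g n) - ⇑y) β mu :=
        add_le_add (hU.lip0 _ _) (hU.lip0 _ _)
      _ ≤ M₀ * (n + 1 : ℝ≥0∞)⁻¹ + M₀ * (n + 1 : ℝ≥0∞)⁻¹ := by
        rw [h3]
        gcongr <;> exact hg n
      _ = 2 * M₀ * (n + 1 : ℝ≥0∞)⁻¹ := by ring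
  have hconv : Tendsto (fun n => eLpNorm (D n - Dl) β mu) atTop (𝓝 0) := by
    have h0 : Tendsto (fun n : ℕ => 2 * (M₀ : ℝ≥0∞) * (n + 1 : ℝ≥0∞)⁻¹) atTop
        (𝓝 (2 * M₀ * 0)) :=
      ENNReal.Tendsto.const_mul htend0 (Or.inr (by finiteness))
    rw [mul_zero] at h0
    exact tendsto_of_tendsto_of_tendsto_of_le_of_le tendsto_const_nhds h0
      (fun _ => zero_le) hdist
  have hmeas : TendstoInMeasure mu D atTop Dl :=
    tendstoInMeasure_of_tendsto_eLpNorm (by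
      rintro rfl; simp at hβ) hDm hDlm hconv
  obtain ⟨ns, -, hns⟩ := hmeas.exists_seq_tendsto_ae
  refine (Lp.eLpNorm_lim_le_liminf_eLpNorm (fun n => hDm (ns n)) Dl hns).trans ?_
  apply liminf_le_of_le (by isBoundedDefault)
  intro b hb
  obtain ⟨n, hn⟩ := hb.exists
  refine hn.trans ?_
  have hadd : MemLp (⇑(g (ns n) + v)) α mu :=
    ((hgα _).add hv).ae_eq (Lp.coeFn_add _ _).symm
  refine (hU.lip1 _ _ hadd (hgα _)).trans ?_
  gcongr
  apply le_of_eq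
  apply eLpNorm_congr_ae
  filter_upwards [Lp.coeFn_add (g (ns n)) v] with t h1
  simp only [Pi.sub_apply, h1, Pi.add_apply]
  ring

lemma eLpNorm_pow {p : ℝ≥0∞} (hp0 : p ≠ 0) (hpt : p ≠ ⊤) (f : ℝ → ℂ) :
    eLpNorm f p mu ^ p.toReal = ∫⁻ t, ENNReal.ofReal (‖f t‖ ^ p.toReal) ∂mu := by
  have hpos : 0 < p.toReal := ENNReal.toReal_pos hp0 hpt
  rw [eLpNorm_eq_lintegral_rpow_enorm_toReal hp0 hpt, ← ENNReal.rpow_mul, one_div,
    inv_mul_cancel₀ hpos.ne', ENNReal.rpow_one]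
  congr 1
  ext t
  rw [← ofReal_norm, ENNReal.ofReal_rpow_of_nonneg (norm_nonneg _) hpos.le]

/-- Chebyshev's inequality in the form used below. -/
lemma cheb {p : ℝ≥0∞} (hp0 : p ≠ 0) (hpt : p ≠ ⊤) {f : ℝ → ℂ} (hf : AEStronglyMeasurable f mu)
    {w : ℝ → ℂ} {M : ℝ≥0} (hM : 0 < M) (hfw : eLpNorm f p mu ≤ M * eLpNorm w p mu) {l : ℝ}
    (hl : 0 < l) :
    mu {t | M * l ≤ ‖f t‖} ≤
      ENNReal.ofReal (l ^ (-p.toReal)) * ∫⁻ t, ENNReal.ofReal (‖w t‖ ^ p.toReal) ∂mu := by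
  have hpos : 0 < p.toReal := ENNReal.toReal_pos hp0 hpt
  have hM' : (0:ℝ) < M := by exact_mod_cast hM
  have hset : {t | (M:ℝ) * l ≤ ‖f t‖} = {t | ENNReal.ofReal (M * l) ≤ ‖f t‖ₑ} := by
    ext t
    simp only [mem_ofPred_eq]
    rw [← ofReal_norm, ENNReal.ofReal_le_ofReal_iff (norm_nonneg _)]
  rw [hset]
  have h1 := meas_ge_le_mul_pow_eLpNorm_enorm mu hp0 hpt hf (ε := ENNReal.ofReal (M * l))
    (by simp only [ne_eq, ENNReal.ofReal_eq_zero, not_le]; positivity) (by simp)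
  refine h1.trans ?_
  have h2 : eLpNorm f p mu ^ p.toReal ≤ (M : ℝ≥0∞) ^ p.toReal * eLpNorm w p mu ^ p.toReal := by
    rw [← ENNReal.mul_rpow_of_nonneg _ _ hpos.le]
    gcongr
  calc (ENNReal.ofReal (M * l))⁻¹ ^ p.toReal * eLpNorm f p mu ^ p.toReal
      ≤ (ENNReal.ofReal (M * l))⁻¹ ^ p.toReal *
        ((M : ℝ≥0∞) ^ p.toReal * eLpNorm w p mu ^ p.toReal) := by gcongr
    _ = ENNReal.ofReal (l ^ (-p.toReal)) * eLpNorm w p mu ^ p.toReal := by
      rw [← mul_assoc]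
      congr 1
      rw [← ENNReal.mul_rpow_of_nonneg _ _ hpos.le]
      have h3 : (ENNReal.ofReal (M * l))⁻¹ * (M : ℝ≥0∞) = ENNReal.ofReal (l⁻¹) := by
        rw [← ENNReal.ofReal_inv_of_pos (by positivity)]
        rw [← ENNReal.ofReal_coe_nnreal, ← ENNReal.ofReal_mul (by positivity)]
        congr 1
        field_simp
      rw [h3, ENNReal.ofReal_rpow_of_nonneg (by positivity) hpos.le,
        Real.inv_rpow hl.le, Real.rpow_neg hl.le]
    _ = _ := by rw [eLpNorm_pow hp0 hpt]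

/-- The main estimate for exponents `1 ≤ β < γ < α < ∞` and `M = max M₀ M₁ > 0`. -/
lemma main_estimate {β γ α : ℝ≥0∞} (hβ : 1 ≤ β) (hβγ : β < γ) (hγα : γ < α) (hα : α < ⊤)
    {U : Lp ℂ β mu → Lp ℂ β mu} {M₀ M₁ : ℝ≥0} (hU : IsAdmissible β α U M₀ M₁)
    {M : ℝ≥0} (hM : 0 < M) (hM0 : M₀ ≤ M) (hM1 : M₁ ≤ M) (x y : Lp ℂ β mu) :
    eLpNorm (⇑(U x) - ⇑(U y)) γ mu ≤
      ENNReal.ofReal (2 * (γ.toReal * (1 / (γ.toReal - β.toReal) + 1 / (α.toReal - γ.toReal)))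
        ^ (1 / γ.toReal)) * M * eLpNorm (⇑x - ⇑y) γ mu := by
  have hβt : β ≠ ⊤ := (hβγ.trans (hγα.trans hα)).ne
  have hγt : γ ≠ ⊤ := (hγα.trans hα).ne
  have hβ0 : β ≠ 0 := by rintro rfl; simp at hβ
  have hγ0 : γ ≠ 0 := (lt_of_le_of_lt zero_le hβγ).ne'
  have hα0 : α ≠ 0 := (lt_of_le_of_lt zero_le hγα).ne'
  have hM' : (0:ℝ) < M := by exact_mod_cast hM
  set b := β.toReal with hb
  set c := γ.toReal with hc
  set a := α.toReal with ha
  have hb0 : 0 < b := ENNReal.toReal_pos hβ0 hβt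
  have hbc : b < c := (ENNReal.toReal_lt_toReal hβt hγt).mpr hβγ
  have hca : c < a := (ENNReal.toReal_lt_toReal hγt hα.ne).mpr hγα
  have hc0 : 0 < c := hb0.trans hbc
  -- the functions
  set w : ℝ → ℂ := ⇑x - ⇑y with hw
  have hwm : StronglyMeasurable w := (Lp.stronglyMeasurable x).sub (Lp.stronglyMeasurable y)
  set z : ℝ → ℂ := ⇑(U x) - ⇑(U y) with hz
  have hzm : StronglyMeasurable z :=
    (Lp.stronglyMeasurable (U x)).sub (Lp.stronglyMeasurable (U y))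
  -- weak type estimate
  have hyp : ∀ l : ℝ, 0 < l → mu {t | l < ‖z t‖ / (2 * M)} ≤
      ENNReal.ofReal (l ^ (-b)) * ∫⁻ t in {t | l < ‖w t‖}, ENNReal.ofReal (‖w t‖ ^ b) ∂mu
      + ENNReal.ofReal (l ^ (-a)) * ∫⁻ t in {t | ‖w t‖ ≤ l}, ENNReal.ofReal (‖w t‖ ^ a) ∂mu := by
    intro l hl
    have hS : MeasurableSet {t | ‖w t‖ ≤ l} := measurableSet_le hwm.norm.measurable measurable_const
    have hS' : MeasurableSet {t | l < ‖w t‖} := measurableSet_lt measurable_const hwm.norm.measurable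
    set w1 : ℝ → ℂ := {t | ‖w t‖ ≤ l}.indicator w with hw1
    set w0 : ℝ → ℂ := {t | l < ‖w t‖}.indicator w with hw0
    have hw1m : AEStronglyMeasurable w1 mu := (hwm.indicator hS).aestronglyMeasurable
    have hw1b : ∀ t, ‖w1 t‖ ≤ l := by
      intro t
      simp only [hw1, Set.indicator, mem_ofPred_eq]
      split_ifs with h
      · exact h
      · simpa using hl.le
    have hw1β : MemLp w1 β mu := MemLp.of_bound hw1m l (Eventually.of_forall hw1b)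
    have hw1α : MemLp w1 α mu := MemLp.of_bound hw1m l (Eventually.of_forall hw1b)
    set v : Lp ℂ β mu := hw1β.toLp w1 with hv
    have hvw : ⇑v =ᵐ[mu] w1 := hw1β.coeFn_toLp
    have hvα : MemLp (⇑v) α mu := hw1α.ae_eq hvw.symm
    have hz1 : eLpNorm (⇑(U (y + v)) - ⇑(U y)) α mu ≤ M * eLpNorm w1 α mu := by
      refine (increment hβ hβt hU y v hvα).trans ?_
      rw [eLpNorm_congr_ae hvw]
      gcongr
    have hz0 : eLpNorm (⇑(U x) - ⇑(U (y + v))) β mu ≤ M * eLpNorm w0 β mu := by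
      refine (hU.lip0 _ _).trans ?_
      have h1 : eLpNorm (⇑x - ⇑(y + v)) β mu = eLpNorm w0 β mu := by
        apply eLpNorm_congr_ae
        filter_upwards [Lp.coeFn_add y v, hvw] with t h1 h2
        simp only [Pi.sub_apply, h1, Pi.add_apply, h2, hw0, hw1, Set.indicator, mem_ofPred_eq, hw]
        by_cases h : ‖(⇑x) t - (⇑y) t‖ ≤ l
        · rw [if_pos h, if_neg (not_lt.mpr h)]; ring
        · rw [if_neg h, if_pos (not_le.mp h)]; ring
      rw [h1]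
      gcongr
    have hsub : {t | l < ‖z t‖ / (2 * M)} ⊆
        {t | (M:ℝ) * l ≤ ‖(⇑(U x) - ⇑(U (y + v))) t‖} ∪ {t | (M:ℝ) * l ≤ ‖(⇑(U (y + v)) - ⇑(U y)) t‖} := by
      intro t ht
      simp only [mem_ofPred_eq, mem_union] at ht ⊢
      by_contra hcon
      push Not at hcon
      rw [lt_div_iff₀ (by positivity)] at ht
      have h1 : z t = (⇑(U x) - ⇑(U (y + v))) t + (⇑(U (y + v)) - ⇑(U y)) t := by
        simp [hz]
      have h2 := norm_add_le ((⇑(U x) - ⇑(U (y + v))) t) ((⇑(U (y + v)) - ⇑(U y)) t)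
      rw [← h1] at h2
      nlinarith [hcon.1, hcon.2]
    refine (measure_mono hsub).trans ((measure_union_le _ _).trans ?_)
    refine add_le_add ?_ ?_
    · refine (cheb hβ0 hβt ((aesm _).sub (aesm _)) hM hz0 hl).trans ?_
      refine mul_le_mul' le_rfl ?_
      rw [← lintegral_indicator hS']
      apply lintegral_mono
      intro t
      simp only [hw0, Set.indicator, mem_ofPred_eq]
      split_ifs with h
      · exact le_rfl
      · rw [norm_zero, Real.zero_rpow (by positivity)]; simp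
    · refine (cheb hα0 hα.ne ((aesm _).sub (aesm _)) hM hz1 hl).trans ?_
      refine mul_le_mul' le_rfl ?_
      rw [← lintegral_indicator hS]
      apply lintegral_mono
      intro t
      simp only [hw1, Set.indicator, mem_ofPred_eq]
      split_ifs with h
      · exact le_rfl
      · rw [norm_zero, Real.zero_rpow (by linarith)]; simp
  have hmain := X86.Marc.marc mu (f := fun t => ‖z t‖ / (2 * M)) (h := fun t => ‖w t‖)
    (hzm.norm.measurable.div_const _) hwm.norm.measurable (fun t => by positivity)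
    (fun t => norm_nonneg _) hb0 hbc hca hyp
  set C₀ : ℝ := c * (1 / (c - b) + 1 / (a - c)) with hC₀
  have hC0 : 0 < C₀ := by
    have h1 : 0 < c - b := by linarith
    have h2 : 0 < a - c := by linarith
    positivity
  -- take roots
  have hL : ∫⁻ t, ENNReal.ofReal ((‖z t‖ / (2 * M)) ^ c) ∂mu
      = ENNReal.ofReal ((2 * (M:ℝ))⁻¹ ^ c) * eLpNorm z γ mu ^ c := by
    rw [eLpNorm_pow hγ0 hγt, ← lintegral_const_mul' _ _ ENNReal.ofReal_ne_top]
    congr 1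
    ext t
    rw [← ENNReal.ofReal_mul (by positivity), div_eq_mul_inv,
      Real.mul_rpow (norm_nonneg _) (by positivity), mul_comm]
  rw [hL, ← eLpNorm_pow hγ0 hγt] at hmain
  have h5 : eLpNorm z γ mu ^ c ≤ (ENNReal.ofReal (2 * C₀ ^ (1 / c)) * M * eLpNorm w γ mu) ^ c := by
    have h6 : eLpNorm z γ mu ^ c
        = ENNReal.ofReal ((2 * (M:ℝ)) ^ c) * (ENNReal.ofReal ((2 * (M:ℝ))⁻¹ ^ c) * eLpNorm z γ mu ^ c) := by
      rw [← mul_assoc, ← ENNReal.ofReal_mul (by positivity), ← Real.mul_rpow (by positivity)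
        (by positivity), mul_inv_cancel₀ (by positivity), Real.one_rpow, ENNReal.ofReal_one,
        one_mul]
    rw [h6]
    calc ENNReal.ofReal ((2 * (M:ℝ)) ^ c) * (ENNReal.ofReal ((2 * (M:ℝ))⁻¹ ^ c) * eLpNorm z γ mu ^ c)
        ≤ ENNReal.ofReal ((2 * (M:ℝ)) ^ c) * (ENNReal.ofReal C₀ * eLpNorm w γ mu ^ c) := by
          gcongr
      _ = (ENNReal.ofReal (2 * C₀ ^ (1 / c)) * M * eLpNorm w γ mu) ^ c := by
          rw [ENNReal.mul_rpow_of_nonneg _ _ hc0.le, ← mul_assoc]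
          congr 1
          rw [← ENNReal.ofReal_mul (by positivity), ← ENNReal.ofReal_coe_nnreal,
            ← ENNReal.ofReal_mul (by positivity), ENNReal.ofReal_rpow_of_nonneg (by positivity)
            hc0.le]
          congr 1
          rw [Real.mul_rpow (by positivity) (by positivity),
            Real.mul_rpow (by positivity) (by positivity),
            Real.mul_rpow (by positivity) (by positivity), ← Real.rpow_mul hC0.le]
          rw [one_div, inv_mul_cancel₀ hc0.ne', Real.rpow_one]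
          ring
  exact (ENNReal.rpow_le_rpow_iff hc0).mp h5

/-- For all exponents `1 ≤ β < γ < α < ∞`, the space `L^γ[0,1]` is a Lipschitz interpolation space
between `L^β[0,1]` and `L^α[0,1]`. -/
theorem result (β γ α : ℝ≥0∞) (hβ : 1 ≤ β) (hβγ : β < γ) (hγα : γ < α) (hα : α < ⊤) :
    ∃ C : ℝ≥0, 0 < C ∧ IsLipschitzInterpolation β γ α C := by
  have hβt : β ≠ ⊤ := (hβγ.trans (hγα.trans hα)).ne
  have hγt : γ ≠ ⊤ := (hγα.trans hα).ne
  have hβ0 : β ≠ 0 := by rintro rfl; simp at hβ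
  have hb0 : 0 < β.toReal := ENNReal.toReal_pos hβ0 hβt
  have hbc : β.toReal < γ.toReal := (ENNReal.toReal_lt_toReal hβt hγt).mpr hβγ
  have hca : γ.toReal < α.toReal := (ENNReal.toReal_lt_toReal hγt hα.ne).mpr hγα
  set R : ℝ := 2 * (γ.toReal * (1 / (γ.toReal - β.toReal) + 1 / (α.toReal - γ.toReal)))
        ^ (1 / γ.toReal) with hR
  have hR0 : 0 < R := by
    have h1 : 0 < γ.toReal - β.toReal := by linarith
    have h2 : 0 < α.toReal - γ.toReal := by linarith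
    have h3 : 0 < γ.toReal := by linarith
    positivity
  refine ⟨R.toNNReal, by simpa using hR0, ?_⟩
  intro U M₀ M₁ hU
  have key : ∀ x y : Lp ℂ β mu,
      eLpNorm (⇑(U x) - ⇑(U y)) γ mu ≤
        (R.toNNReal : ℝ≥0∞) * (max M₀ M₁ : ℝ≥0) * eLpNorm (⇑x - ⇑y) γ mu := by
    intro x y
    rcases eq_or_ne (max M₀ M₁) 0 with hM | hM
    · have hM0 : M₀ = 0 := by
        have : M₀ ≤ 0 := hM ▸ le_max_left _ _
        exact le_antisymm this zero_le
      have h1 := hU.lip0 x y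
      rw [hM0, ENNReal.coe_zero, zero_mul] at h1
      have h2 : eLpNorm (⇑(U x) - ⇑(U y)) β mu = 0 := le_antisymm h1 zero_le
      rw [eLpNorm_eq_zero_iff ((aesm _).sub (aesm _)) hβ0] at h2
      rw [eLpNorm_congr_ae h2, eLpNorm_zero]
      exact zero_le
    · exact main_estimate hβ hβγ hγα hα hU (pos_iff_ne_zero.mpr hM) (le_max_left _ _)
        (le_max_right _ _) x y
  refine ⟨?_, fun x y _ _ => key x y⟩
  intro x hx
  have h0α : MemLp (⇑(0 : Lp ℂ β mu)) α mu :=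
    (MemLp.zero (p := α)).ae_eq (Lp.coeFn_zero ℂ β mu).symm
  have hU0 : MemLp (⇑(U 0)) γ mu := (hU.maps 0 h0α).mono_exponent hγα.le
  have hdiff : MemLp (⇑(U x) - ⇑(U 0)) γ mu := by
    refine ⟨(aesm _).sub (aesm _), ?_⟩
    refine (key x 0).trans_lt ?_
    have h1 : eLpNorm (⇑x - ⇑(0 : Lp ℂ β mu)) γ mu = eLpNorm (⇑x) γ mu := by
      apply eLpNorm_congr_ae
      filter_upwards [Lp.coeFn_zero ℂ β mu] with t ht
      simp only [Pi.sub_apply, ht, Pi.zero_apply, sub_zero]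
    rw [h1]
    exact ENNReal.mul_lt_top (ENNReal.mul_lt_top (by simp) (by simp)) hx.2
  have h2 := hdiff.add hU0
  simpa using h2

end Pool.Agent.Results.MP_6e3e44_an.LipInterp
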